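import Pool.Agent.X122.HR5

/-!
# MP_ec5c38_an, Q1: the critical Hardy–Rellich inequality (i) fails

For `k = 2` and every sufficiently large even dimension `N = 2p`, inequality (i) fails for some
`u ∈ C_c^2(B_R)`, for every `R > 0`.
-/

namespace Pool.Agent.Results.MP_ec5c38_an.HalfPlaneProfile

open MeasureTheory X122HR Filter

noncomputable section

/-- Euclidean length of the gradient (the coordinate partial derivatives are taken along lines). -/
def gradLen {N : ℕ} (u : (Fin N → ℝ) → ℝ) (x : Fin N → ℝ) : ℝ :=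
  Real.sqrt (∑ i : Fin N, (deriv (fun t : ℝ => u (x + t • Pi.single i (1 : ℝ))) 0) ^ 2)

/-- `|∇^k u|(x)` in the Rellich convention: `|Δ^m u|` for `k = 2m`, `|∇ Δ^m u|` for `k = 2m+1`. -/
def nablaLen {N : ℕ} (k : ℕ) (u : (Fin N → ℝ) → ℝ) (x : Fin N → ℝ) : ℝ :=
  if Even k then |(lap^[k / 2] u) x| else gradLen (lap^[k / 2] u) x

/-- the constant `C_{N,k}` -/
def CNk (N k : ℕ) : ℝ := (∏ j ∈ Finset.Icc 1 k, (((j : ℝ) * N - k) / N)) ^ ((N : ℝ) / k)

/-- Inequality (i) for all `u ∈ C_c^k(B_R)`. -/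
def HardyRellich (N k : ℕ) (R : ℝ) : Prop :=
  ∀ u : (Fin N → ℝ) → ℝ, ContDiff ℝ k u → HasCompactSupport u → tsupport u ⊆ ballR N R →
    ENNReal.ofReal (CNk N k) *
      ∫⁻ x in ballR N R, ENNReal.ofReal (|u x| ^ ((N : ℝ) / k) /
        (en x ^ N * Real.log (R / en x) ^ N)) ≤
    ∫⁻ x in ballR N R, ENNReal.ofReal (nablaLen k u x ^ ((N : ℝ) / k))

lemma CNk_ge {p : ℕ} (hp : 3000 ≤ p) : (1999 / 1000 : ℝ) ^ p ≤ CNk (2 * p) 2 := by
  have hp0 : (3000 : ℝ) ≤ p := by exact_mod_cast hp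
  have hpp : (0 : ℝ) < p := by linarith
  unfold CNk
  have e : (((2 * p : ℕ) : ℝ) / (2 : ℕ)) = (p : ℝ) := by push_cast; field_simp
  rw [e, Real.rpow_natCast]
  refine pow_le_pow_left₀ (by norm_num) ?_ p
  rw [show Finset.Icc 1 2 = {1, 2} from rfl, Finset.prod_pair (by norm_num)]
  push_cast
  have e2 : (1 * (2 * (p:ℝ)) - 2) / (2 * p) * ((2 * (2 * (p:ℝ)) - 2) / (2 * p)) =
      (1 - 1 / p) * (2 - 1 / p) := by
    field_simp
  rw [e2]
  have h1 : 1 / (p : ℝ) ≤ 1 / 3000 := one_div_le_one_div_of_le (by norm_num) hp0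
  have h0 : 0 < 1 / (p : ℝ) := by positivity
  nlinarith

theorem fails : ∃ p0 : ℕ, ∀ p : ℕ, p0 ≤ p → ∀ R : ℝ, 0 < R → ¬ HardyRellich (2 * p) 2 R := by
  obtain ⟨ρ, hρ, hρ1, hnear⟩ := near_half
  obtain ⟨n0, hn0⟩ := ((tendsto_pow_atTop_atTop_of_one_lt (by norm_num : (1:ℝ) < 1001 / 1000)).eventually_gt_atTop
    (108 / ρ ^ 2)).exists_forall_of_atTop
  refine ⟨max n0 3000, fun p hp R hR hHR => ?_⟩
  have hp1 : n0 ≤ p := le_trans (le_max_left _ _) hp
  have hp2 : 3000 ≤ p := le_trans (le_max_right _ _) hp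
  have hpow := hn0 p hp1
  obtain ⟨m, hm⟩ : ∃ m, 2 * p = m + 1 := ⟨2 * p - 1, by omega⟩
  have hm0 : 0 < m := by omega
  set ε : ℝ := 1 / (1000 * (m + 40)) with hεd
  have hm40 : (0:ℝ) < m + 40 := by positivity
  have hε : 0 < ε := by positivity
  have hεm : ε * (m + 40) ≤ 1 / 1000 := by
    rw [hεd]; apply le_of_eq; field_simp
  have hε1 : 40 * ε ≤ 1 / 1000 := by nlinarith [mul_nonneg hε.le (Nat.cast_nonneg m : (0:ℝ) ≤ m)]
  obtain ⟨hsupp, htsupp⟩ := supp_u (m := m) (ρ := ρ) hR hε hρ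
  have hcd := uf_contDiff (m := m) (KK ρ ε) (cc R ε) (dd R ε)
  unfold HardyRellich at hHR
  rw [hm] at hHR
  have hHR2 := hHR (uf (KK ρ ε) (cc R ε) (dd R ε)) (by exact_mod_cast hcd) hsupp htsupp
  have eN : (((m + 1 : ℕ) : ℝ) / ((2 : ℕ) : ℝ)) = (p : ℝ) := by
    rw [← hm]; push_cast; field_simp
  rw [eN] at hHR2
  have hd0 : 0 < dd R ε := by unfold dd; positivity
  -- upper bound of the right side
  have hup : ∫⁻ x in ballR (m + 1) R, ENNReal.ofReal (nablaLen 2 (uf (KK ρ ε) (cc R ε) (dd R ε)) x ^ (p : ℝ)) ≤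
      ENNReal.ofReal ((1002 / 1000 * dd R ε ^ 2) ^ p) * volume (SS m R ε ρ) := by
    refine (setLIntegral_le_lintegral _ _).trans ?_
    have hmeas : MeasurableSet (SS m R ε ρ) := by
      have hc1 : Continuous fun x : Fin (m + 1) → ℝ => KK ρ ε - cc R ε / 2 * sqn x := by
        have := sqn_cont (m := m + 1)
        fun_prop
      have hc2 : Continuous fun x : Fin (m + 1) → ℝ => |dd R ε * x 0| := by fun_prop
      exact ((isClosed_le continuous_const hc1).inter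
        ((isClosed_le hc1 continuous_const).inter (isClosed_le hc2 continuous_const))).measurableSet
    rw [← lintegral_indicator_const hmeas]
    refine lintegral_mono fun x => ?_
    have hb := lap_bd (m := m) hR hε hρ (by linarith) hεm x
    have hn : nablaLen 2 (uf (KK ρ ε) (cc R ε) (dd R ε)) x = |lap (uf (KK ρ ε) (cc R ε) (dd R ε)) x| := by
      unfold nablaLen
      simp
    rw [hn, Real.rpow_natCast]
    by_cases hx : x ∈ SS m R ε ρ
    · rw [Set.indicator_of_mem hx]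
      exact ENNReal.ofReal_le_ofReal (pow_le_pow_left₀ (abs_nonneg _) hb.1 p)
    · rw [Set.indicator_of_notMem hx]
      have h0 : lap (uf (KK ρ ε) (cc R ε) (dd R ε)) x = 0 := hb.2 hx
      rw [h0, abs_zero, zero_pow (by omega)]
      simp
  -- lower bound of the left side
  have hlow : ENNReal.ofReal ((502 / 1000 * dd R ε ^ 2) ^ p) * volume (AA m R ε ρ) ≤
      ∫⁻ x in ballR (m + 1) R, ENNReal.ofReal (|uf (KK ρ ε) (cc R ε) (dd R ε) x| ^ (p : ℝ) /
        (en x ^ (m + 1) * Real.log (R / en x) ^ (m + 1))) := by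
    have hsub : AA m R ε ρ ⊆ ballR (m + 1) R := fun x hx =>
      (mem_ballR hR x).2 (AA_prop hR hε hρ hρ1 hε1 hx).2.2.2
    refine le_trans ?_ (lintegral_mono_set hsub)
    rw [← setLIntegral_const]
    refine setLIntegral_mono' ?_ fun x hx => ?_
    · unfold AA
      have hc1 : Continuous fun x : Fin (m + 1) → ℝ => sqn (fun j : Fin m => x j.succ) := by
        unfold sqn; fun_prop
      have hc2 : Continuous fun x : Fin (m + 1) → ℝ => x 0 := by fun_prop
      refine MeasurableSet.inter (hc2.measurable measurableSet_Ioo) ?_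
      exact (isClosed_le continuous_const hc1).measurableSet.inter (isOpen_lt hc1 continuous_const).measurableSet
    · rw [Real.rpow_natCast]
      have hw := weight_bd (p := p) hR hε hρ hρ1 hε1 hnear hx
      rw [hm] at hw
      exact ENNReal.ofReal_le_ofReal hw
  obtain ⟨v1, v2, v3⟩ := vol_bd (m := m) hR hε hρ hρ1 hm0 hεm
  have hchain : ENNReal.ofReal (CNk (m + 1) 2) * (ENNReal.ofReal ((502 / 1000 * dd R ε ^ 2) ^ p) * volume (AA m R ε ρ)) ≤
      ENNReal.ofReal ((1002 / 1000 * dd R ε ^ 2) ^ p) * (ENNReal.ofReal (108 / ρ ^ 2) * volume (AA m R ε ρ)) :=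
    (mul_le_mul_right hlow _).trans (hHR2.trans (hup.trans (mul_le_mul_right v1 _)))
  have hC : (1999 / 1000 : ℝ) ^ p ≤ CNk (m + 1) 2 := by rw [← hm]; exact CNk_ge hp2
  have hC0 : 0 ≤ CNk (m + 1) 2 := le_trans (by positivity) hC
  rw [← mul_assoc, ← mul_assoc, ← ENNReal.ofReal_mul hC0, ← ENNReal.ofReal_mul (by positivity),
    ENNReal.mul_le_mul_iff_left v2.ne' v3.ne, ENNReal.ofReal_le_ofReal_iff (by positivity)] at hchain
  -- contradiction
  have hd2 : 0 < (dd R ε ^ 2) ^ p := by positivity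
  have h1 : (1999 / 1000 : ℝ) ^ p * (502 / 1000 * dd R ε ^ 2) ^ p ≤ CNk (m + 1) 2 * (502 / 1000 * dd R ε ^ 2) ^ p :=
    mul_le_mul_of_nonneg_right hC (by positivity)
  have h2 : (1001 / 1000 : ℝ) ^ p * (1002 / 1000 * dd R ε ^ 2) ^ p ≤ (1999 / 1000 : ℝ) ^ p * (502 / 1000 * dd R ε ^ 2) ^ p := by
    rw [← mul_pow, ← mul_pow]
    apply pow_le_pow_left₀ (by positivity)
    nlinarith [sq_nonneg (dd R ε)]
  have h3 : 108 / ρ ^ 2 * (1002 / 1000 * dd R ε ^ 2) ^ p < (1001 / 1000 : ℝ) ^ p * (1002 / 1000 * dd R ε ^ 2) ^ p :=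
    mul_lt_mul_of_pos_right hpow (by positivity)
  linarith

/-- **Q1 of MP_ec5c38_an is false.**  For `k = 2`, every sufficiently large even `N = 2p` and every
`R > 0`, inequality (i) fails for some `u ∈ C_c^2(B_R)`; in particular there are `N > k ≥ 2` for
which (i) fails for every `R > 0`. -/
theorem result :
    (∃ p0 : ℕ, ∀ p : ℕ, p0 ≤ p → ∀ R : ℝ, 0 < R → ¬ HardyRellich (2 * p) 2 R) ∧
    (∃ N k : ℕ, 2 ≤ k ∧ k < N ∧ ∀ R : ℝ, 0 < R → ¬ HardyRellich N k R) := by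
  obtain ⟨p0, h⟩ := fails
  refine ⟨⟨p0, h⟩, 2 * (p0 + 2), 2, le_rfl, by omega, fun R hR => h _ (by omega) R hR⟩

end

end Pool.Agent.Results.MP_ec5c38_an.HalfPlaneProfile
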